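import Pool.Agent.Helper39K9.FV.Fin5
import Pool.Agent.R782.Bal.Main

/-!
# The Singer conjecture for Poincare duality groups in right-angled Coxeter groups: few vertices

Let `L` be the flag complex of the finite graph `G`, and suppose that `L` is a homology manifold with the homology of
the `(n-1)`-sphere.  Then all torsion-free subgroups of finite index of the right-angled Coxeter group `W G` are
Poincare duality groups of dimension `n` (Davis): over the integers if `L` is an integral homology sphere, over the
reals in the generality of `HSph n G`.

The Singer conjecture is proved for all `n` if `L` has at most `(5 n + 4) / 2` vertices (a flag `(n-1)`-sphere has at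
least `2 n` vertices), and more generally if `L` is tame, `Tame G n univ`. The class `Tame` contains

* the complexes of rank `r` (dimension `r - 1`) with at most `(5 r + 4) / 2` vertices,
* the complexes of rank `r` with at most `3 r - 1` vertices which are not joins,
* the complexes of rank at most three, and the suspensions (which are known),
* the joins of tame complexes,
* the vertex splittings of tame complexes: the complexes with an edge `st` in no induced square such that the
  contraction of `st` and the link of `st` are tame,
* for even `r` the complexes of rank `r` such that the links of all the simplices with an odd number of vertices are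
  tame, where one may omit the simplices all of whose vertices are in a set `B` of exceptional vertices, if the
  simplices in `B` have at most `r / 2` vertices. Here there is no bound for the number of vertices. So all complexes
  of rank four are tame (`tame_four`; for the 3-spheres the Singer conjecture is known), and all spheres of rank six
  all of whose vertex links can be reduced to suspensions by contractions of edges which are in no induced square.

Proof: a prime (not a join) flag sphere of rank `e ≥ 2` has at least `3 e - 1` vertices, and a vertex with a prime link
(`Pool/Agent/W497/FS`); so spheres with few vertices have a vertex with only two or three non-neighbours. These can be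
contracted to one, which gives a suspension, and the links of the contracted edges are again of this kind. For even `r`
one uses induction on the full subcomplexes of the links. All flag 2-spheres can be contracted to the octahedron.
-/

set_option autoImplicit false

namespace Pool.Agent.Results.MP_984acc_gt.FewVertices

open Pool.Agent.W907.SG Pool.Agent.TH652.Above Pool.Agent.Y132.SI Pool.Agent.R782.Bal
open Pool.Agent.Helper39K9.FV.K (Tame)

/-- Let the flag complex `L` of `G` be a real homology sphere of dimension `n - 1` which is tame (for example, it has
at most `(5 n + 4) / 2` vertices, `Tame.few`).
(1) The reduced `ℓ²`-homology of the Davis complex of `W G` vanishes in all degrees `i ≠ n / 2`, and in all degrees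
if `L` has less than `5 n / 2` vertices.
(2) For `n = 2 m` the number `(-1)^m χ(W G)` is not negative, `χ(W G) = ∑_T (-1/2)^|T|` over the cliques `T`.
(3) For each `ε > 0` there is a finite set `E` of nontrivial elements of `W G` such that for every subgroup `H` of
finite index of `W G` which contains no conjugate of an element of `E`, and for all `i`, the `i`-th real Betti number
of `H` (the dimension of the space of the `H`-invariant real harmonic `i`-chains of the Davis complex) differs by at
most `ε [W G : H]` from `0`, if `2 i ≠ n`, or from `(-1)^i χ(W G) [W G : H]`, if `2 i = n`. -/
theorem result : ∀ (n : ℕ) (V : Type) [Fintype V] [LinearOrder V] (G : SimpleGraph V), HSph n G →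
    Tame G n Finset.univ →
    (∀ i : ℕ, 2 * i ≠ n ∨ 2 * Fintype.card V < 5 * n → L2Van G i) ∧
    (∀ m : ℕ, n = 2 * m → 0 ≤ (-1 : ℚ) ^ m * chiW G) ∧
    ∀ ε : ℝ, 0 < ε → ∃ E : Finset (W G), (1 : W G) ∉ E ∧
      ∀ H : Subgroup (W G), H.FiniteIndex → (∀ g ∈ E, ∀ x : W G, x * g * x⁻¹ ∉ H) → ∀ i : ℕ,
          |(Module.finrank ℝ (HInv G H i) : ℝ) -
            (if 2 * i = n then (-1) ^ i * (chiW G : ℝ) else 0) * H.index| ≤ ε * H.index := by
  intro n V _ _ G hS h
  have hA : SQ (n / 2 + 1) G := Pool.Agent.Helper39K9.FV.K.final6 hS h
  have h1 : ∀ i : ℕ, 2 * i ≠ n → L2Van G i := fun i hi => singer_SQ hS hA i hi
  refine ⟨fun i hi => ?_, ?_, fun ε hε => growth_free G n h1 ε hε⟩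
  · rcases hi with hi | hi
    · exact h1 i hi
    · exact above_SQ (Pool.Agent.Helper39K9.FV.main0 hS hi) i (Nat.zero_le i)
  · rintro m rfl
    exact chi_sign G fun i hi => h1 i (by omega)

end Pool.Agent.Results.MP_984acc_gt.FewVertices
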